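import Mathlib

/-!
# MP_dec24c_co: a graph with a finite strong resolving set has a finite `W` without bad pairs
-/

namespace Pool.Agent.Results.MP_dec24c_co.NoBadPair

open Relation

variable {V : Type*}

/-- `r` is a geodesic ray: a one-way infinite path of distinct vertices all of whose subpaths are
shortest paths. -/
def IsGeodesicRay (G : SimpleGraph V) (r : ℕ → V) : Prop :=
  Function.Injective r ∧ (∀ i, G.Adj (r i) (r (i + 1))) ∧
    ∀ i j, i ≤ j → G.dist (r i) (r j) = j - i

/-- `r` is a geodesic `W`-ray: a geodesic ray with initial vertex in `W`. -/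
def IsWRay (G : SimpleGraph V) (W : Finset V) (r : ℕ → V) : Prop :=
  IsGeodesicRay G r ∧ r 0 ∈ W

/-- The edge `uv` is directed `u → v` in `G_W`: some geodesic `W`-ray contains both `u` and `v`,
and every geodesic `W`-ray which contains both traverses the edge as `u → v`. -/
def Directed (G : SimpleGraph V) (W : Finset V) (u v : V) : Prop :=
  (∃ r, IsWRay G W r ∧ (∃ i, r i = u) ∧ ∃ j, r j = v) ∧
    ∀ r, IsWRay G W r → (∃ i, r i = u) → (∃ j, r j = v) → ∃ i, r i = u ∧ r (i + 1) = v

/-- One step of a path in `G_W`: `uv` is an edge which is directed `u → v` or undirected. -/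
def Step (G : SimpleGraph V) (W : Finset V) (u v : V) : Prop :=
  G.Adj u v ∧ (Directed G W u v ∨ (¬ Directed G W u v ∧ ¬ Directed G W v u))

/-- There is a `u`-`v` path in `G_W`: a finite sequence `u :: l` of distinct vertices with last
entry `v`, in which consecutive vertices form a step. -/
def GPath (G : SimpleGraph V) (W : Finset V) (u v : V) : Prop :=
  ∃ l : List V, (u :: l).Nodup ∧ List.IsChain (Step G W) (u :: l) ∧
    (u :: l).getLast (List.cons_ne_nil u l) = v

/-- `u`, `v` is a bad pair of `G_W`: they are distinct and `G_W` has neither a `u`-`v` path nor a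
`v`-`u` path. -/
def BadPair (G : SimpleGraph V) (W : Finset V) (u v : V) : Prop :=
  u ≠ v ∧ ¬ GPath G W u v ∧ ¬ GPath G W v u

/-- `S` is a strong resolving set: any two distinct vertices `u`, `v` are strongly resolved by some
`w ∈ S`. -/
def StrongResolving (G : SimpleGraph V) (S : Finset V) : Prop :=
  ∀ u v, u ≠ v → ∃ w ∈ S, G.dist w v = G.dist w u + G.dist u v ∨
    G.dist w u = G.dist w v + G.dist v u

theorem gpath_of_rtg {G : SimpleGraph V} {W : Finset V} {u v : V}
    (h : ReflTransGen (Step G W) u v) : GPath G W u v := by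
  induction h using ReflTransGen.head_induction_on with
  | refl => exact ⟨[], by simp, by simp, rfl⟩
  | @head a c hac _ ih =>
    obtain ⟨l, h1, h2, h3⟩ := ih
    by_cases ha : a ∈ c :: l
    · obtain ⟨s, t, hst⟩ := List.append_of_mem ha
      refine ⟨t, ?_, ?_, ?_⟩
      · rw [hst] at h1
        exact (List.nodup_append.1 h1).2.1
      · rw [hst] at h2
        exact (List.isChain_append.1 h2).2.1
      · have h4 : (c :: l).getLast? = (a :: t).getLast? := by
          rw [hst, List.getLast?_append_of_ne_nil _ (List.cons_ne_nil a t)]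
        rw [List.getLast?_eq_some_getLast (List.cons_ne_nil c l),
          List.getLast?_eq_some_getLast (List.cons_ne_nil a t), h3] at h4
        exact (Option.some.inj h4).symm
    · exact ⟨c :: l, List.nodup_cons.2 ⟨ha, h1⟩, List.isChain_cons_cons.2 ⟨hac, h2⟩, by
        simpa using h3⟩

/-! ### Increasing steps -/

theorem rtg_mono {r p : V → V → Prop} (h : ∀ a b, r a b → p a b) {x y : V}
    (hxy : ReflTransGen r x y) : ReflTransGen p x y := by
  induction hxy with
  | refl => exact ReflTransGen.refl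
  | tail _ hbc ih => exact ih.tail (h _ _ hbc)

/-- The step `x → y` increases the distance from `s`. -/
def Inc (G : SimpleGraph V) (s x y : V) : Prop := G.Adj x y ∧ G.dist s y = G.dist s x + 1

theorem dist_adj_le {G : SimpleGraph V} (hG : G.Connected) {x y : V} (h : G.Adj x y) (s : V) :
    G.dist s y ≤ G.dist s x + 1 := by
  have h1 := hG.dist_triangle (u := s) (v := x) (w := y)
  rw [SimpleGraph.dist_eq_one_iff_adj.2 h] at h1
  exact h1

/-- first step of a geodesic -/
theorem first_step {G : SimpleGraph V} (hG : G.Connected) {u v : V} {n : ℕ}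
    (h : G.dist u v = n + 1) : ∃ q, G.Adj u q ∧ G.dist q v = n := by
  obtain ⟨p, hp⟩ := hG.exists_walk_length_eq_dist u v
  cases p with
  | nil => rw [SimpleGraph.dist_self] at h; omega
  | @cons _ q _ hadj p =>
    refine ⟨q, hadj, ?_⟩
    rw [SimpleGraph.Walk.length_cons, h] at hp
    have h1 := SimpleGraph.dist_le p
    have h2 := hG.dist_triangle (u := u) (v := q) (w := v)
    rw [SimpleGraph.dist_eq_one_iff_adj.2 hadj] at h2
    omega

/-- A set of coordinates all resolving `u, v` increasingly: a path along which all increase. -/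
theorem inc_path {G : SimpleGraph V} (hG : G.Connected) (T : Set V) :
    ∀ (n : ℕ) (u v : V), G.dist u v = n → (∀ s ∈ T, G.dist s v = G.dist s u + n) →
      ReflTransGen (fun x y => (∀ s ∈ T, Inc G s x y) ∧ G.Adj x y ∧
        ∀ s ∈ T, G.dist s u ≤ G.dist s x) u v := by
  intro n
  induction n with
  | zero =>
    intro u v h _
    rw [hG.dist_eq_zero_iff] at h
    subst h
    exact ReflTransGen.refl
  | succ n ih =>
    intro u v h hT
    obtain ⟨q, hadj, hq⟩ := first_step hG h
    have hstep : ∀ s ∈ T, G.dist s q = G.dist s u + 1 := by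
      intro s hs
      have h1 := dist_adj_le hG hadj s
      have h2 := hG.dist_triangle (u := s) (v := q) (w := v)
      have h3 := hT s hs
      omega
    have h1 := ih q v hq (fun s hs => by rw [hT s hs, hstep s hs]; ring)
    refine ReflTransGen.head ⟨fun s hs => ⟨hadj, hstep s hs⟩, hadj, fun s _ => le_rfl⟩ ?_
    refine rtg_mono ?_ h1
    rintro x y ⟨a, b, c⟩
    exact ⟨a, b, fun s hs => by have := c s hs; have := hstep s hs; omega⟩

theorem inc_path_one {G : SimpleGraph V} (hG : G.Connected) {s u v : V}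
    (h : G.dist s v = G.dist s u + G.dist u v) :
    ReflTransGen (fun x y => Inc G s x y ∧ G.dist s u ≤ G.dist s x) u v := by
  have := inc_path hG {s} (G.dist u v) u v rfl (by simpa using h)
  refine rtg_mono ?_ this
  rintro x y ⟨a, _, c⟩
  exact ⟨a s rfl, c s rfl⟩

/-- an infinite increasing sequence is a geodesic ray -/
theorem ray_of_inc {G : SimpleGraph V} (hG : G.Connected) {s : V} {r : ℕ → V}
    (hr : ∀ i, Inc G s (r i) (r (i + 1))) : IsGeodesicRay G r := by
  have h1 : ∀ i k, G.dist s (r (i + k)) = G.dist s (r i) + k := by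
    intro i k
    induction k with
    | zero => simp
    | succ k ih =>
      have := (hr (i + k)).2
      rw [show i + (k + 1) = i + k + 1 by ring, this, ih]
      ring
  have h2 : ∀ i k, G.dist (r i) (r (i + k)) ≤ k := by
    intro i k
    induction k with
    | zero => simp
    | succ k ih =>
      have := dist_adj_le hG (hr (i + k)).1 (r i)
      rw [show i + (k + 1) = i + k + 1 by ring]
      omega
  have h3 : ∀ i k, G.dist (r i) (r (i + k)) = k := by
    intro i k
    have a := h1 i k
    have b := h2 i k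
    have c := hG.dist_triangle (u := s) (v := r i) (w := r (i + k))
    omega
  refine ⟨?_, fun i => (hr i).1, ?_⟩
  · intro i j hij
    rcases le_total i j with h | h
    · obtain ⟨k, rfl⟩ := Nat.exists_eq_add_of_le h
      have := h3 i k
      rw [← hij, SimpleGraph.dist_self] at this
      omega
    · obtain ⟨k, rfl⟩ := Nat.exists_eq_add_of_le h
      have := h3 j k
      rw [hij, SimpleGraph.dist_self] at this
      omega
  · intro i j hij
    obtain ⟨k, rfl⟩ := Nat.exists_eq_add_of_le hij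
    rw [h3]
    omega

/-- extend an increasing sequence to the left -/
theorem extend_left {G : SimpleGraph V} {s w x : V} (h : ReflTransGen (Inc G s) w x) :
    ∀ q : ℕ → V, q 0 = x → (∀ i, Inc G s (q i) (q (i + 1))) →
      ∃ (r : ℕ → V) (k : ℕ), r 0 = w ∧ (∀ i, Inc G s (r i) (r (i + 1))) ∧
        ∀ i, r (k + i) = q i := by
  induction h with
  | refl =>
    intro q h0 hq
    exact ⟨q, 0, h0, hq, fun i => by simp⟩
  | @tail b c _ hbc ih =>
    intro q h0 hq
    obtain ⟨r, k, hr0, hr, hrk⟩ := ih (fun i => Nat.casesOn i b q) rfl (by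
      intro i
      cases i with
      | zero => simpa [h0] using hbc
      | succ i => exact hq i)
    refine ⟨r, k + 1, hr0, hr, fun i => ?_⟩
    have := hrk (i + 1)
    rw [show k + 1 + i = k + (i + 1) by ring, this]

/-! ### Steps and rays -/

theorem step_of_ray {G : SimpleGraph V} {W : Finset V} {r : ℕ → V} (hr : IsWRay G W r) (i : ℕ) :
    Step G W (r i) (r (i + 1)) := by
  have hnot : ¬ Directed G W (r (i + 1)) (r i) := by
    rintro ⟨_, h⟩
    obtain ⟨j, h1, h2⟩ := h r hr ⟨i + 1, rfl⟩ ⟨i, rfl⟩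
    have h3 := hr.1.1 h1
    have h4 := hr.1.1 h2
    omega
  refine ⟨hr.1.2.1 i, ?_⟩
  by_cases h : Directed G W (r i) (r (i + 1))
  · exact Or.inl h
  · exact Or.inr ⟨h, hnot⟩

theorem step_of_untouched {G : SimpleGraph V} {W : Finset V} {x y : V} (hxy : G.Adj x y)
    (h : ∀ r, IsWRay G W r → ∀ i, r i ≠ x) : Step G W x y ∧ Step G W y x := by
  have h1 : ¬ Directed G W x y := by
    rintro ⟨⟨r, hr, ⟨i, hi⟩, _⟩, _⟩
    exact h r hr i hi
  have h2 : ¬ Directed G W y x := by
    rintro ⟨⟨r, hr, _, ⟨i, hi⟩⟩, _⟩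
    exact h r hr i hi
  exact ⟨⟨hxy, Or.inr ⟨h1, h2⟩⟩, ⟨hxy.symm, Or.inr ⟨h2, h1⟩⟩⟩

theorem ray_reach {G : SimpleGraph V} {W : Finset V} {r : ℕ → V} (hr : IsWRay G W r) (i k : ℕ) :
    ReflTransGen (Step G W) (r i) (r (i + k)) := by
  induction k with
  | zero => exact ReflTransGen.refl
  | succ k ih => exact ih.tail (step_of_ray hr (i + k))

/-! ### Coordinates -/

section coords

variable {G : SimpleGraph V} (hG : G.Connected) {S : Finset V} (hS : StrongResolving G S)
  {s0 : V} (hs0 : s0 ∈ S)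

/-- a bound for the distances between the members of `S` -/
noncomputable def Dm (G : SimpleGraph V) (S : Finset V) (s0 : V) : ℕ := ∑ s ∈ S, G.dist s0 s

include hG in
theorem off1 {s : V} (hs : s ∈ S) (v : V) : G.dist s v ≤ G.dist s0 v + Dm G S s0 := by
  have h1 : G.dist s0 s ≤ Dm G S s0 :=
    Finset.single_le_sum (f := fun s => G.dist s0 s) (fun _ _ => Nat.zero_le _) hs
  have h2 := hG.dist_triangle (u := s) (v := s0) (w := v)
  rw [G.dist_comm (u := s) (v := s0)] at h2
  omega

include hG in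
theorem off2 {s : V} (hs : s ∈ S) (v : V) : G.dist s0 v ≤ G.dist s v + Dm G S s0 := by
  have h1 : G.dist s0 s ≤ Dm G S s0 :=
    Finset.single_le_sum (f := fun s => G.dist s0 s) (fun _ _ => Nat.zero_le _) hs
  have h2 := hG.dist_triangle (u := s0) (v := s) (w := v)
  omega

include hG hS in
theorem coord_inj {u v : V} (h : ∀ s ∈ S, G.dist s u = G.dist s v) : u = v := by
  by_contra hne
  obtain ⟨w, hw, h1 | h1⟩ := hS u v hne
  · rw [h w hw] at h1
    have : G.dist u v = 0 := by omega
    exact hne (hG.dist_eq_zero_iff.1 this)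
  · rw [h w hw] at h1
    have : G.dist v u = 0 := by omega
    exact hne (hG.dist_eq_zero_iff.1 this).symm

include hG hS in
theorem level_finite (m : ℕ) : {v | G.dist s0 v ≤ m}.Finite := by
  classical
  have hinj : Set.InjOn (fun v => fun s : S => G.dist s.1 v) {v | G.dist s0 v ≤ m} := by
    intro u _ v _ huv
    apply coord_inj hG hS
    intro s hs
    exact congrFun huv ⟨s, hs⟩
  apply Set.Finite.of_finite_image _ hinj
  apply (Set.finite_Iic (fun _ : S => m + Dm G S s0)).subset
  rintro g ⟨v, hv, rfl⟩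
  intro s
  have h1 := off1 hG (s0 := s0) s.2 v
  have h2 : G.dist s0 v ≤ m := hv
  change G.dist s.1 v ≤ m + Dm G S s0
  omega

/-- the offsets -/
noncomputable def off (G : SimpleGraph V) (S : Finset V) (s0 v : V) : S → ℤ :=
  fun s => (G.dist s.1 v : ℤ) - G.dist s0 v

include hG in
theorem off_range_finite : (Set.range (off G S s0)).Finite := by
  classical
  apply (Set.finite_Icc (fun _ : S => -(Dm G S s0 : ℤ)) (fun _ : S => (Dm G S s0 : ℤ))).subset
  rintro g ⟨v, rfl⟩
  refine ⟨fun s => ?_, fun s => ?_⟩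
  · have := off2 hG (s0 := s0) s.2 v
    simp only [off]
    omega
  · have := off1 hG (s0 := s0) s.2 v
    simp only [off]
    omega

/-- `v` has infinitely many vertices of the same offset -/
def InfCl (G : SimpleGraph V) (S : Finset V) (s0 v : V) : Prop :=
  {v' | off G S s0 v' = off G S s0 v}.Infinite

include hG in
theorem inf_far : ∃ n0, ∀ v, n0 ≤ G.dist s0 v → InfCl G S s0 v := by
  have hfin : {v | ¬ InfCl G S s0 v}.Finite := by
    have hO := (off_range_finite hG (S := S) (s0 := s0)).subset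
      (Set.sep_subset (Set.range (off G S s0)) (fun o => (off G S s0 ⁻¹' {o}).Finite))
    apply (hO.biUnion (t := fun o => off G S s0 ⁻¹' {o}) (fun o ho => ho.2)).subset
    intro v hv
    simp only [Set.mem_setOf_eq, InfCl, Set.not_infinite] at hv
    simp only [Set.mem_iUnion]
    exact ⟨off G S s0 v, ⟨⟨v, rfl⟩, hv⟩, rfl⟩
  obtain ⟨B, hB⟩ := (hfin.image (fun v => G.dist s0 v)).bddAbove
  refine ⟨B + 1, fun v hv => ?_⟩
  by_contra hc
  have := hB ⟨v, hc, rfl⟩
  simp only at this
  omega

include hG hS in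
/-- in the same class and farther: all coordinates resolve -/
theorem same_class {v v' : V} (ho : off G S s0 v' = off G S s0 v)
    (hlt : G.dist s0 v < G.dist s0 v') :
    (∀ s ∈ S, G.dist s v' = G.dist s v + G.dist v v') ∧
      G.dist s0 v' = G.dist s0 v + G.dist v v' := by
  have hne : v ≠ v' := by rintro rfl; omega
  have h1 : ∀ s ∈ S, (G.dist s v' : ℤ) - G.dist s0 v' = G.dist s v - G.dist s0 v :=
    fun s hs => congrFun ho ⟨s, hs⟩
  have h2 : G.dist s0 v' = G.dist s0 v + G.dist v v' := by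
    obtain ⟨w, hw, h3 | h3⟩ := hS v v' hne
    · have := h1 w hw
      omega
    · have := h1 w hw
      omega
  refine ⟨fun s hs => ?_, h2⟩
  have := h1 s hs
  omega

include hG hS in
theorem class_far {v : V} (hv : InfCl G S s0 v) (m : ℕ) :
    ∃ v', off G S s0 v' = off G S s0 v ∧ m < G.dist s0 v' := by
  by_contra hc
  push Not at hc
  exact hv ((level_finite hG hS (s0 := s0) m).subset fun v' hv' => hc v' hv')

/-- all coordinates increase -/
def AllInc (G : SimpleGraph V) (S : Finset V) (x y : V) : Prop :=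
  G.Adj x y ∧ ∀ s ∈ S, Inc G s x y

def Good (G : SimpleGraph V) (S : Finset V) (s0 v : V) : Prop :=
  ∃ v', ReflTransGen (AllInc G S) v v' ∧ InfCl G S s0 v'

include hG hS in
theorem good_step {v : V} (hv : Good G S s0 v) : ∃ q, AllInc G S v q ∧ Good G S s0 q := by
  obtain ⟨v', hvv, hv'⟩ := hv
  rcases ReflTransGen.cases_head hvv with rfl | ⟨q, h1, h2⟩
  · obtain ⟨v'', ho, hlt⟩ := class_far hG hS hv' (G.dist s0 v)
    obtain ⟨h1, _⟩ := same_class hG hS ho hlt
    have h2 := inc_path hG (S : Set V) (G.dist v v'') v v'' rfl (fun s hs => h1 s hs)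
    have h3 : ReflTransGen (AllInc G S) v v'' :=
      rtg_mono (fun x y h => ⟨h.2.1, fun s hs => h.1 s hs⟩) h2
    rcases ReflTransGen.cases_head h3 with rfl | ⟨q, h4, h5⟩
    · omega
    · refine ⟨q, h4, v'', h5, ?_⟩
      unfold InfCl at hv' ⊢
      rw [ho]
      exact hv'
  · exact ⟨q, h1, v', h2, hv'⟩

include hG hS in
theorem good_ray {v : V} (hv : Good G S s0 v) :
    ∃ q : ℕ → V, q 0 = v ∧ ∀ i, AllInc G S (q i) (q (i + 1)) := by
  choose nx hnx1 hnx2 using fun (x : {v // Good G S s0 v}) => good_step hG hS x.2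
  let R : ℕ → {v // Good G S s0 v} := fun n => Nat.rec ⟨v, hv⟩ (fun _ x => ⟨nx x, hnx2 x⟩) n
  exact ⟨fun n => (R n).1, rfl, fun i => hnx1 (R i)⟩

include hG hS in
/-- open edges -/
theorem open_edge {W : Finset V} {s w x y : V} (hs : s ∈ S) (hw : w ∈ W)
    (hwx : ReflTransGen (Inc G s) w x) (hxy : Inc G s x y) (hy : Good G S s0 y) :
    Step G W x y := by
  obtain ⟨q, hq0, hq⟩ := good_ray hG hS hy
  obtain ⟨r, k, hr0, hr, hrk⟩ := extend_left hwx (fun i => Nat.casesOn i x q) rfl (by
    intro i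
    cases i with
    | zero => simpa [hq0] using hxy
    | succ i => exact (hq i).2 s hs)
  have hW : IsWRay G W r := ⟨ray_of_inc hG hr, by rw [hr0]; exact hw⟩
  have h1 := step_of_ray hW k
  have h2 := hrk 0
  have h3 := hrk 1
  simp only [add_zero] at h2
  rw [h2, h3] at h1
  simpa [hq0] using h1

/-- increasing steps in the region `n ≤ dist s0` -/
def Up (G : SimpleGraph V) (S : Finset V) (s0 : V) (n : ℕ) (x y : V) : Prop :=
  ∃ s ∈ S, Inc G s x y ∧ n ≤ G.dist s0 x ∧ n ≤ G.dist s0 y

include hG hS hs0 in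
theorem reach_far {n0 n : ℕ} (hn0 : ∀ v, n0 ≤ G.dist s0 v → InfCl G S s0 v) (hn : n0 ≤ n) {v : V}
    (hv : n ≤ G.dist s0 v) : ∃ M, ∀ z, M ≤ G.dist s0 z → ReflTransGen (Up G S s0 n) v z := by
  obtain ⟨c, ho, hlt⟩ := class_far hG hS (hn0 v (hn.trans hv)) (G.dist s0 v + n + 2 * Dm G S s0)
  obtain ⟨_, h2⟩ := same_class hG hS ho (by omega)
  have p1 : ReflTransGen (Up G S s0 n) v c := by
    refine rtg_mono ?_ (inc_path_one hG h2)
    rintro x y ⟨h3, h4⟩
    refine ⟨s0, hs0, h3, by omega, ?_⟩
    have := h3.2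
    omega
  refine ⟨G.dist s0 c + 2 * Dm G S s0 + 1, fun z hz => p1.trans ?_⟩
  have hne : c ≠ z := by rintro rfl; omega
  obtain ⟨w, hw, h3 | h3⟩ := hS c z hne
  · refine rtg_mono ?_ (inc_path_one hG h3)
    rintro x y ⟨h4, h5⟩
    have e1 := off1 hG (s0 := s0) hw x
    have e2 := off2 hG (s0 := s0) hw c
    have e3 := off1 hG (s0 := s0) hw y
    have e4 := h4.2
    exact ⟨w, hw, h4, by omega, by omega⟩
  · exfalso
    have e1 := off2 hG (s0 := s0) hw z
    have e2 := off1 hG (s0 := s0) hw c
    omega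

include hG in
theorem ray_far {r : ℕ → V} (hr : IsGeodesicRay G r) (i M : ℕ) :
    ∃ k, M ≤ G.dist s0 (r (i + k)) := by
  refine ⟨G.dist s0 (r i) + M, ?_⟩
  have h1 := hr.2.2 i (i + (G.dist s0 (r i) + M)) (by omega)
  have h2 := hG.dist_triangle (u := r i) (v := s0) (w := r (i + (G.dist s0 (r i) + M)))
  rw [G.dist_comm (u := r i) (v := s0)] at h2
  omega

include hG hS in
theorem ray_inc {r : ℕ → V} (hr : IsGeodesicRay G r) :
    ∃ s ∈ S, ∀ i, Inc G s (r i) (r (i + 1)) := by
  by_contra hc
  push Not at hc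
  choose! i hi using hc
  set J := ∑ s ∈ S, (i s + 1 + G.dist s (r 0)) + 1 with hJ
  have hle : ∀ s ∈ S, i s + 1 + G.dist s (r 0) < J := by
    intro s hs
    have := Finset.single_le_sum (f := fun s => i s + 1 + G.dist s (r 0))
      (fun _ _ => Nat.zero_le _) hs
    omega
  have hne : r 0 ≠ r J := by
    intro e
    have := hr.1 e
    omega
  have hd : G.dist (r 0) (r J) = J := by
    have := hr.2.2 0 J (by omega)
    simpa using this
  obtain ⟨w, hw, h1 | h1⟩ := hS (r 0) (r J) hne
  · have h2 := hle w hw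
    have h3 : G.dist w (r (i w + 1)) ≤ G.dist w (r (i w)) := by
      have a := dist_adj_le hG (hr.2.1 (i w)) w
      by_contra hcon
      exact hi w hw ⟨hr.2.1 (i w), by omega⟩
    have h4 := hG.dist_triangle (u := w) (v := r 0) (w := r (i w))
    have h5 := hG.dist_triangle (u := w) (v := r (i w + 1)) (w := r J)
    rw [hr.2.2 0 (i w) (by omega)] at h4
    rw [hr.2.2 (i w + 1) J (by omega)] at h5
    omega
  · rw [G.dist_comm (u := r J) (v := r 0)] at h1
    have h2 := hle w hw
    omega

include hG in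
theorem crossing {s a y : V} {N : ℕ} (h : ReflTransGen (Inc G s) a y) (ha : G.dist s0 a ≤ N)
    (hy : N < G.dist s0 y) : ∃ w, G.dist s0 w = N ∧ ReflTransGen (Inc G s) w y := by
  induction h using ReflTransGen.head_induction_on with
  | refl => omega
  | @head a c hac hcy ih =>
    by_cases h1 : G.dist s0 a = N
    · exact ⟨a, h1, ReflTransGen.head hac hcy⟩
    · apply ih
      have := dist_adj_le hG hac.1 s0
      omega

theorem up_region {n : ℕ} {x y : V} (hx : n ≤ G.dist s0 x) (h : ReflTransGen (Up G S s0 n) x y) :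
    n ≤ G.dist s0 y := by
  induction h with
  | refl => exact hx
  | tail _ hbc _ => exact hbc.choose_spec.2.2.2

include hG hS hs0 in
theorem setup {n0 n : ℕ} {x0 : V} (hn0 : ∀ v, n0 ≤ G.dist s0 v → InfCl G S s0 v)
    (hn : n0 + 1 ≤ n) (hx0 : n ≤ G.dist s0 x0) :
    ∃ W : Finset V, x0 ∈ W ∧ (∀ w ∈ W, ReflTransGen (Up G S s0 n) x0 w) ∧
      ∀ y, ReflTransGen (Up G S s0 n) x0 y → ∀ s ∈ S, ∀ b, Inc G s y b → Step G W y b := by
  obtain ⟨M, hM⟩ := reach_far hG hS hs0 hn0 (by omega) hx0
  set N := M + G.dist s0 x0 + ∑ s ∈ S, G.dist s0 s with hN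
  have hfin : {v | ReflTransGen (Up G S s0 n) x0 v ∧ G.dist s0 v ≤ N}.Finite :=
    (level_finite hG hS N).subset fun v hv => hv.2
  refine ⟨hfin.toFinset, ?_, ?_, ?_⟩
  · rw [Set.Finite.mem_toFinset]
    exact ⟨ReflTransGen.refl, by omega⟩
  · intro w hw
    rw [Set.Finite.mem_toFinset] at hw
    exact hw.1
  · intro y hy s hs b hyb
    have hgood : Good G S s0 b := by
      refine ⟨b, ReflTransGen.refl, hn0 b ?_⟩
      have h1 := up_region hx0 hy
      have h2 := dist_adj_le hG hyb.1.symm s0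
      omega
    by_cases hyN : G.dist s0 y ≤ N
    · exact open_edge hG hS hs (w := y) ((Set.Finite.mem_toFinset _).2 ⟨hy, hyN⟩)
        ReflTransGen.refl hyb hgood
    · have h1 : ReflTransGen (Inc G s) s y := by
        refine rtg_mono ?_ (inc_path_one hG (s := s) (u := s) (v := y) (by simp))
        rintro a c ⟨h, _⟩
        exact h
      have h2 : G.dist s0 s ≤ N := by
        have := Finset.single_le_sum (f := fun s => G.dist s0 s) (fun _ _ => Nat.zero_le _) hs
        omega
      obtain ⟨w, hw1, hw2⟩ := crossing hG h1 h2 (by omega)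
      exact open_edge hG hS hs (w := w)
        ((Set.Finite.mem_toFinset _).2 ⟨hM w (by omega), hw1.le⟩) hw2 hyb hgood

include hG hS in
theorem final_A {n : ℕ} {x0 : V} {W : Finset V}
    (hWU : ∀ w ∈ W, ReflTransGen (Up G S s0 n) x0 w) (hx0 : n ≤ G.dist s0 x0)
    (hstep : ∀ y, ReflTransGen (Up G S s0 n) x0 y → ∀ s ∈ S, ∀ b, Inc G s y b → Step G W y b)
    (hA : ∀ y, ReflTransGen (Up G S s0 n) x0 y → ∀ s ∈ S, ∀ b, Inc G s y b → n ≤ G.dist s0 b)
    (u v : V) : ReflTransGen (Step G W) u v ∨ ReflTransGen (Step G W) v u := by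
  have hcl : ∀ y, ReflTransGen (Up G S s0 n) x0 y → ∀ s ∈ S, ∀ b, Inc G s y b →
      ReflTransGen (Up G S s0 n) x0 b := by
    intro y hy s hs b hyb
    exact hy.tail ⟨s, hs, hyb, up_region hx0 hy, hA y hy s hs b hyb⟩
  have hray : ∀ r, IsWRay G W r → ∀ i, ReflTransGen (Up G S s0 n) x0 (r i) := by
    intro r hr i
    obtain ⟨s, hs, hinc⟩ := ray_inc hG hS hr.1
    induction i with
    | zero => exact hWU _ hr.2
    | succ i ih => exact hcl _ ih s hs _ (hinc i)
  have hback : ∀ (x y : V), G.Walk x y → ReflTransGen (Up G S s0 n) x0 y →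
      ∃ u, ReflTransGen (Up G S s0 n) x0 u ∧ ReflTransGen (Step G W) x u ∧
        ReflTransGen (Step G W) u x := by
    intro x y p hy
    induction p with
    | nil => exact ⟨_, hy, ReflTransGen.refl, ReflTransGen.refl⟩
    | @cons a c d hadj p ih =>
      by_cases ha : ReflTransGen (Up G S s0 n) x0 a
      · exact ⟨a, ha, ReflTransGen.refl, ReflTransGen.refl⟩
      · obtain ⟨u, h1, h2, h3⟩ := ih hy
        obtain ⟨s1, s2⟩ := step_of_untouched (W := W) hadj (fun r hr i e => ha (e ▸ hray r hr i))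
        exact ⟨u, h1, ReflTransGen.head s1 h2, h3.tail s2⟩
  have hpath : ∀ s ∈ S, ∀ a c, ReflTransGen (Up G S s0 n) x0 a → ReflTransGen (Inc G s) a c →
      ReflTransGen (Step G W) a c ∧ ReflTransGen (Up G S s0 n) x0 c := by
    intro s hs a c ha hac
    induction hac with
    | refl => exact ⟨ReflTransGen.refl, ha⟩
    | tail _ hbc ih => exact ⟨ih.1.tail (hstep _ ih.2 s hs _ hbc), hcl _ ih.2 s hs _ hbc⟩
  have hcomp : ∀ a c, ReflTransGen (Up G S s0 n) x0 a → ReflTransGen (Up G S s0 n) x0 c →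
      ReflTransGen (Step G W) a c ∨ ReflTransGen (Step G W) c a := by
    intro a c ha hc
    by_cases hac : a = c
    · subst hac
      exact Or.inl ReflTransGen.refl
    · obtain ⟨w, hw, h1 | h1⟩ := hS a c hac
      · left
        exact (hpath w hw a c ha (rtg_mono (fun x y h => h.1) (inc_path_one hG h1))).1
      · right
        exact (hpath w hw c a hc (rtg_mono (fun x y h => h.1) (inc_path_one hG h1))).1
  obtain ⟨p⟩ := hG.preconnected u x0
  obtain ⟨p'⟩ := hG.preconnected v x0
  obtain ⟨a, ha, ha1, ha2⟩ := hback u x0 p ReflTransGen.refl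
  obtain ⟨c, hc, hc1, hc2⟩ := hback v x0 p' ReflTransGen.refl
  rcases hcomp a c ha hc with h | h
  · exact Or.inl (ha1.trans (h.trans hc2))
  · exact Or.inr (hc1.trans (h.trans ha2))

include hG in
theorem final_B {n M : ℕ} {x0 : V} {W : Finset V}
    (hWU : ∀ w ∈ W, ReflTransGen (Up G S s0 n) x0 w)
    (hstep : ∀ y, ReflTransGen (Up G S s0 n) x0 y → ∀ s ∈ S, ∀ b, Inc G s y b → Step G W y b)
    (hM : ∀ z, M ≤ G.dist s0 z → ReflTransGen (Up G S s0 n) x0 z)
    (hB : ∀ y, ReflTransGen (Up G S s0 n) x0 y → ReflTransGen (Up G S s0 n) y x0)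
    (u v : V) : ReflTransGen (Step G W) u v := by
  have hup : ∀ a c, ReflTransGen (Up G S s0 n) x0 a → ReflTransGen (Up G S s0 n) a c →
      ReflTransGen (Step G W) a c := by
    intro a c ha hac
    induction hac with
    | refl => exact ReflTransGen.refl
    | tail hab hbc ih =>
      obtain ⟨s, hs, hinc, _⟩ := hbc
      exact ih.tail (hstep _ (ha.trans hab) s hs _ hinc)
  have htouched : ∀ r, IsWRay G W r → ∀ i, ReflTransGen (Step G W) (r i) x0 ∧
      ReflTransGen (Step G W) x0 (r i) := by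
    intro r hr i
    obtain ⟨k, hk⟩ := ray_far hG (s0 := s0) hr.1 i M
    have h1 := hM _ hk
    refine ⟨(ray_reach hr i k).trans (hup _ _ h1 (hB _ h1)), ?_⟩
    have h2 := hWU _ hr.2
    have h3 := ray_reach hr 0 i
    rw [Nat.zero_add] at h3
    exact (hup x0 _ ReflTransGen.refl h2).trans h3
  have hall : ∀ (x y : V), G.Walk x y → y = x0 → ReflTransGen (Step G W) x x0 ∧
      ReflTransGen (Step G W) x0 x := by
    intro x y p hy
    induction p with
    | nil => subst hy; exact ⟨ReflTransGen.refl, ReflTransGen.refl⟩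
    | @cons a c d hadj p ih =>
      by_cases ha : ∃ r, IsWRay G W r ∧ ∃ i, r i = a
      · obtain ⟨r, hr, i, rfl⟩ := ha
        exact htouched r hr i
      · obtain ⟨h1, h2⟩ := ih hy
        obtain ⟨s1, s2⟩ := step_of_untouched (W := W) hadj
          (fun r hr i e => ha ⟨r, hr, i, e⟩)
        exact ⟨ReflTransGen.head s1 h1, h2.tail s2⟩
  obtain ⟨p⟩ := hG.preconnected u x0
  obtain ⟨p'⟩ := hG.preconnected v x0
  exact (hall u x0 p rfl).1.trans (hall v x0 p' rfl).2

include hG hS hs0 in
theorem exists_good_W : ∃ W : Finset V, W.Nonempty ∧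
    ∀ u v, ReflTransGen (Step G W) u v ∨ ReflTransGen (Step G W) v u := by
  by_cases hbd : ∃ M, ∀ z, G.dist s0 z < M
  · obtain ⟨M, hM⟩ := hbd
    refine ⟨{s0}, Finset.singleton_nonempty _, fun u v => Or.inl ?_⟩
    have hno : ∀ r, ¬ IsWRay G {s0} r := by
      intro r hr
      obtain ⟨k, hk⟩ := ray_far hG (s0 := s0) hr.1 0 M
      have := hM (r (0 + k))
      omega
    obtain ⟨p⟩ := hG.preconnected u v
    induction p with
    | nil => exact ReflTransGen.refl
    | cons hadj _ ih =>
      exact ReflTransGen.head (step_of_untouched hadj (fun r hr => (hno r hr).elim)).1 ih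
  · push Not at hbd
    obtain ⟨n0, hn0⟩ := inf_far hG (S := S) (s0 := s0)
    set n := n0 + 1 with hn
    by_cases hA : ∃ x, n ≤ G.dist s0 x ∧ ∀ y, ReflTransGen (Up G S s0 n) x y → ∀ s ∈ S, ∀ b,
        Inc G s y b → n ≤ G.dist s0 b
    · obtain ⟨x0, hx0, hA⟩ := hA
      obtain ⟨W, h1, h2, h3⟩ := setup hG hS hs0 hn0 le_rfl hx0
      exact ⟨W, ⟨x0, h1⟩, final_A hG hS h2 hx0 h3 hA⟩
    · push Not at hA
      have hlev : ∀ x, n ≤ G.dist s0 x → ∃ y, G.dist s0 y = n ∧
          ReflTransGen (Up G S s0 n) x y := by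
        intro x hx
        obtain ⟨y, hxy, s, hs, b, hyb, hb⟩ := hA x hx
        have h1 := up_region hx hxy
        have h2 := dist_adj_le hG hyb.1.symm s0
        exact ⟨y, by omega, hxy⟩
      have hz : ∃ z, G.dist s0 z = n ∧ ∀ M, ∃ x, M ≤ G.dist s0 x ∧
          ReflTransGen (Up G S s0 n) x z := by
        by_contra hc
        push Not at hc
        choose! M hM using hc
        have hfin := level_finite hG hS (s0 := s0) n
        obtain ⟨x, hx⟩ := hbd (n + ∑ z ∈ hfin.toFinset, M z)
        obtain ⟨y, hy1, hy2⟩ := hlev x (by omega)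
        refine hM y hy1 x ?_ hy2
        have := Finset.single_le_sum (f := fun z => M z) (fun _ _ => Nat.zero_le _)
          (hfin.mem_toFinset.2 hy1.le)
        omega
      obtain ⟨z, hz1, hz2⟩ := hz
      obtain ⟨W, h1, h2, h3⟩ := setup hG hS hs0 hn0 le_rfl hz1.ge
      obtain ⟨M, hM⟩ := reach_far hG hS hs0 hn0 (Nat.le_succ n0) hz1.ge
      refine ⟨W, ⟨z, h1⟩, fun u v => Or.inl (final_B hG h2 h3 hM ?_ u v)⟩
      intro y hy
      obtain ⟨M', hM'⟩ := reach_far hG hS hs0 hn0 (Nat.le_succ n0) (up_region hz1.ge hy)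
      obtain ⟨x, hx1, hx2⟩ := hz2 M'
      exact (hM' x hx1).trans hx2

end coords

/-- If `G` is a connected graph such that for every nonempty finite `W` the orientation `G_W`
contains a bad pair, then `G` has no finite strong resolving set. -/
theorem result (G : SimpleGraph V) (hG : G.Connected)
    (hbad : ∀ W : Finset V, W.Nonempty → ∃ u v, BadPair G W u v) :
    ¬ ∃ S : Finset V, StrongResolving G S := by
  rintro ⟨S, hS⟩
  have hW : ∃ W : Finset V, W.Nonempty ∧
      ∀ u v, u ≠ v → ReflTransGen (Step G W) u v ∨ ReflTransGen (Step G W) v u := by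
    rcases S.eq_empty_or_nonempty with rfl | ⟨s0, hs0⟩
    · obtain ⟨v⟩ := hG.nonempty
      refine ⟨{v}, Finset.singleton_nonempty v, fun a b hab => ?_⟩
      obtain ⟨w, hw, _⟩ := hS a b hab
      simp at hw
    · obtain ⟨W, h1, h2⟩ := exists_good_W hG hS hs0
      exact ⟨W, h1, fun u v _ => h2 u v⟩
  obtain ⟨W, h1, h2⟩ := hW
  obtain ⟨u, v, hne, h3, h4⟩ := hbad W h1
  rcases h2 u v hne with h | h
  · exact h3 (gpath_of_rtg h)
  · exact h4 (gpath_of_rtg h)

end Pool.Agent.Results.MP_dec24c_co.NoBadPair
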